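import Pool.Agent.Lib.MP_79499b_co.QZ.QF3
import Pool.Agent.Lib.MP_79499b_co.Q38Primes
import Pool.Agent.Lib.MP_79499b_co.PCSinger

/-!
# The number of orders of Singer-parameter difference sets, in all dimensions

For `m ≥ 3` call `n ≥ 2` an `m`-order if some finite group (nilpotent if `m` is even) of order
`(n^m - 1)/(n - 1)` contains a difference set with the Singer parameters.  For every `m ≥ 3` and
`ε > 0` the number of `m`-orders `n < x` lies between `c x / log x` and `C x / (log x)^(1 - ε)`.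
The upper bound holds for all `m ≤ L` and all odd `m` having a prime factor `≤ L` together.
-/

set_option autoImplicit false

open Filter Topology

namespace Pool.Agent.Results.MP_79499b_co.AllDimensions

open Pool.Agent.Lib.MP_79499b_co

/-- Some finite group `G` of order `v = (n^m - 1)/(n - 1)`, nilpotent if `m` is even, contains a
difference set with the Singer parameters `(v, k, λ)`, `k = (n^(m-1) - 1)/(n - 1)`,
`λ = (n^(m-2) - 1)/(n - 1)`. -/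
def IsOrder (n m : ℕ) : Prop :=
  ∃ (G : Type) (_ : Group G) (_ : Fintype G) (_ : DecidableEq G) (D : Finset G),
    (Even m → Group.IsNilpotent G) ∧
    Fintype.card G * (n - 1) = n ^ m - 1 ∧
    D.card * (n - 1) = n ^ (m - 1) - 1 ∧
    ∀ g : G, g ≠ 1 →
      ((D ×ˢ D).filter (fun p : G × G => p.1 * p.2⁻¹ = g)).card * (n - 1) = n ^ (m - 2) - 1

/-- the number of all `n` with `2 ≤ n < x` and `IsOrder n m` -/
noncomputable def orderCount (m x : ℕ) : ℕ :=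
  Set.ncard {n : ℕ | 2 ≤ n ∧ n < x ∧ IsOrder n m}

/-- the number of all `n` with `2 ≤ n < x` such that `IsOrder n m` for some `m ≥ 3` which is `≤ L`,
or odd with a prime factor `≤ L` -/
noncomputable def unionCount (L x : ℕ) : ℕ :=
  Set.ncard {n : ℕ | 2 ≤ n ∧ n < x ∧ ∃ m : ℕ, 3 ≤ m ∧
    (m ≤ L ∨ (Odd m ∧ ∃ l : ℕ, l.Prime ∧ l ≤ L ∧ l ∣ m)) ∧ IsOrder n m}

lemma ncard_eq (P : ℕ → Prop) (x : ℕ) :
    ((Set.ncard {n : ℕ | 2 ≤ n ∧ n < x ∧ P n} : ℕ) : ℝ) = Q38.cnt (fun n => 2 ≤ n ∧ P n) x := by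
  unfold Q38.cnt
  congr 2
  ext n
  constructor
  · rintro ⟨h4, h5, h6⟩; exact ⟨h5, h4, h6⟩
  · rintro ⟨h5, h4, h6⟩; exact ⟨h4, h5, h6⟩

lemma of_prime {p m : ℕ} (hp : p.Prime) (hm : 3 ≤ m) : IsOrder p m := by
  obtain ⟨G, h1, h2, h3, D, hG, hD, hlam⟩ := PC.singer_prime' hp hm
  exact ⟨G, inferInstance, h2, h3, D, fun _ => inferInstance, hG, hD, hlam⟩

/-- odd `m` -/
lemma odd_few (L : ℕ) (ε : ℝ) (hε : 0 < ε) :
    Q38.Few (fun n => 2 ≤ n ∧ ∃ m l : ℕ, 3 ≤ m ∧ Odd m ∧ l.Prime ∧ l ≤ L ∧ l ∣ m ∧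
        IsOrder n m) (1 - ε) := by
  have h1 : Q38.Few (fun n => ∃ l ∈ (Finset.range (L + 1)).filter (fun l => l.Prime ∧ 3 ≤ l),
      1 ≤ n ∧ Q38.Exc l n) (1 - ε) := by
    apply Q38.Few.exists
    intro l hl
    rw [Finset.mem_filter] at hl
    exact Q38.nt1' hl.2.1 hl.2.2 hε
  refine h1.mono ?_
  rintro n ⟨hn, m, l, hm, hodd, hl, hlL, hlm, G, _, _, _, D, -, hG, hD, hlam⟩
  have hl3 : 3 ≤ l := by
    have h3 := hl.two_le
    have h4 : Odd l := Odd.of_dvd_nat hodd hlm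
    obtain ⟨t, ht⟩ := h4
    omega
  refine ⟨l, Finset.mem_filter.mpr ⟨Finset.mem_range.mpr (by omega), hl, hl3⟩, by omega, ?_⟩
  exact Q38.exc_of_singer hn hm hodd hlm D hG hD hlam

/-- even `m` -/
lemma even_few {m : ℕ} (hm : 3 ≤ m) (he : Even m) (ε : ℝ) (hε : 0 < ε) :
    Q38.Few (fun n => 2 ≤ n ∧ IsOrder n m) (1 - ε) := by
  classical
  obtain ⟨s, rfl⟩ := he
  obtain ⟨C, hC, h⟩ := QZ.even_rate s (by omega) ε hε
  refine ⟨C, hC.le, fun x hx => ?_⟩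
  rw [Q38.cnt_eq, ← mul_div_assoc]
  refine le_trans ?_ (h x hx)
  unfold EO.cnt
  refine Nat.cast_le.mpr (Finset.card_le_card ?_)
  intro n hn
  rw [Finset.mem_filter] at hn ⊢
  obtain ⟨hx, h2, G, hGr, hF, hDec, D, hab, h3, h4, h5⟩ := hn
  refine ⟨hx, ?_⟩
  rw [two_mul]
  exact ⟨G, hGr, hab ⟨s, rfl⟩, hF, hDec, D, h3, h4, h5⟩

theorem result (L : ℕ) (hL : 3 ≤ L) (ε : ℝ) (hε : 0 < ε) :
    ∃ c C : ℝ, 0 < c ∧ ∀ x : ℕ, 3 ≤ x →
      (∀ m : ℕ, 3 ≤ m → c * (x / Real.log x) ≤ orderCount m x) ∧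
      (unionCount L x : ℝ) ≤ C * (x / (Real.log x) ^ (1 - ε)) := by
  have h1 : Q38.Few (fun n => ∃ m ∈ (Finset.Icc 3 L).filter (fun m => Even m),
      2 ≤ n ∧ IsOrder n m) (1 - ε) := by
    apply Q38.Few.exists
    intro m hm
    rw [Finset.mem_filter, Finset.mem_Icc] at hm
    exact even_few hm.1.1 hm.2 ε hε
  obtain ⟨C, -, hC⟩ := h1.or (odd_few L ε hε)
  obtain ⟨c, hc, hlow⟩ := Q38.primes_lower
  refine ⟨c, C, hc, fun x hx => ⟨fun m hm => ?_, ?_⟩⟩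
  · rw [orderCount, ncard_eq]
    refine (hlow x hx).trans (Q38.cnt_mono ?_ x)
    rintro n ⟨hn, -⟩
    exact ⟨hn.two_le, of_prime hn hm⟩
  · rw [unionCount, ncard_eq]
    refine (Q38.cnt_mono ?_ x).trans (hC x hx)
    rintro n ⟨hn, m, hm, hmL, h⟩
    rcases Nat.even_or_odd m with he | ho
    · left
      have hmL' : m ≤ L := by
        rcases hmL with h2 | ⟨h2, -⟩
        · exact h2
        · exact absurd he (Nat.not_even_iff_odd.mpr h2)
      exact ⟨m, Finset.mem_filter.mpr ⟨Finset.mem_Icc.mpr ⟨hm, hmL'⟩, he⟩, hn, h⟩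
    · right
      rcases hmL with h2 | ⟨-, l, h2, h3, h4⟩
      · obtain ⟨l, hl, hlm⟩ := Nat.exists_prime_and_dvd (show m ≠ 1 by omega)
        exact ⟨hn, m, l, hm, ho, hl, (Nat.le_of_dvd (by omega) hlm).trans h2, hlm, h⟩
      · exact ⟨hn, m, l, hm, ho, h2, h3, h4, h⟩

end Pool.Agent.Results.MP_79499b_co.AllDimensions
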