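import Pool.Agent.Lib.MP_79499b_co.EO.Z2
import Pool.Agent.Lib.MP_79499b_co.PCMain
import Pool.Agent.Lib.MP_79499b_co.PCSinger

/-!
# `m = 4` and `m = 6`, abelian groups

For `m = 4` and `m = 6` the numbers `n < x` which are not prime and for which some abelian group has
a difference set with the Singer parameters are `O(x / (log x)^(2 - ε))` (`m = 4`) and
`O(x / (log x)^(3 - ε))` (`m = 6`), and the number of all orders `n < x` is asymptotic to `π(x)`.
-/

set_option autoImplicit false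

open Filter Topology

namespace Pool.Agent.Results.MP_79499b_co.FourSixOrders

open Pool.Agent.Lib.MP_79499b_co

/-- Some finite abelian group `G` of order `(n^m - 1)/(n - 1)` contains a difference set `D` with the
Singer parameters: `|D| = (n^(m-1) - 1)/(n - 1)` and every `g ≠ 1` is `d e⁻¹` for exactly
`(n^(m-2) - 1)/(n - 1)` pairs `(d, e)` in `D × D`. -/
def HasAbelianSinger (n m : ℕ) : Prop :=
  ∃ (G : Type) (_ : CommGroup G) (_ : Fintype G) (_ : DecidableEq G) (D : Finset G),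
    Fintype.card G * (n - 1) = n ^ m - 1 ∧
    D.card * (n - 1) = n ^ (m - 1) - 1 ∧
    ∀ g : G, g ≠ 1 →
      ((D ×ˢ D).filter (fun p : G × G => p.1 * p.2⁻¹ = g)).card * (n - 1) = n ^ (m - 2) - 1

/-- the number of `n` with `2 ≤ n < x` and `HasAbelianSinger n m` -/
noncomputable def orderCount (m x : ℕ) : ℕ :=
  Set.ncard {n : ℕ | 2 ≤ n ∧ n < x ∧ HasAbelianSinger n m}

/-- the number of those which are not prime -/
noncomputable def nonprimeCount (m x : ℕ) : ℕ :=
  Set.ncard {n : ℕ | 2 ≤ n ∧ n < x ∧ ¬ n.Prime ∧ HasAbelianSinger n m}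

lemma nonprimeCount_eq (m x : ℕ) :
    (nonprimeCount m x : ℝ) = EO.cnt x (fun n => 2 ≤ n ∧ ¬ n.Prime ∧ EO.AbOrder n m) := by
  classical
  unfold nonprimeCount EO.cnt
  have h : {n : ℕ | 2 ≤ n ∧ n < x ∧ ¬ n.Prime ∧ HasAbelianSinger n m} =
      (((Finset.range x).filter (fun n => 2 ≤ n ∧ ¬ n.Prime ∧ EO.AbOrder n m) : Finset ℕ) :
        Set ℕ) := by
    ext n
    rw [Finset.coe_filter]
    simp only [Set.mem_ofPred_eq, Finset.mem_range]
    constructor
    · rintro ⟨h1, h2, h3, h4⟩; exact ⟨h2, h1, h3, h4⟩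
    · rintro ⟨h2, h1, h3, h4⟩; exact ⟨h1, h2, h3, h4⟩
  rw [h, Set.ncard_coe_finset]
  congr!

lemma primeCounting'_eq (x : ℕ) :
    (Nat.primeCounting' x : ℝ) = (((Finset.range x).filter Nat.Prime).card : ℝ) := by
  rw [Nat.primeCounting', Nat.count_eq_card_filter_range]

/-- the counting bound with an arbitrary `ε` -/
lemma nonprime_le {m κ : ℕ} (hm : (m = 4 ∧ κ = 2) ∨ (m = 6 ∧ κ = 3)) {ε : ℝ} (hε : 0 < ε) :
    ∃ C : ℝ, ∀ x : ℕ, 3 ≤ x →
      (nonprimeCount m x : ℝ) ≤ C * x / (Real.log x) ^ ((κ : ℝ) - ε) := by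
  have h1 : 0 < min (ε / 8) (1 / 8) := lt_min (by positivity) (by norm_num)
  obtain ⟨C, hC, h⟩ := EO.main_count hm h1 (lt_of_le_of_lt (min_le_right _ _) (by norm_num))
  refine ⟨C, fun x hx => ?_⟩
  rw [nonprimeCount_eq]
  refine (h x hx).trans ?_
  have hx3 : (3 : ℝ) ≤ x := by exact_mod_cast hx
  have hlog : (1 : ℝ) < Real.log x := by
    rw [Real.lt_log_iff_exp_lt (by positivity)]
    have := Real.exp_one_lt_d9
    linarith
  have h2 : (Real.log x) ^ ((κ : ℝ) - ε) ≤ (Real.log x) ^ ((κ : ℝ) - 8 * min (ε / 8) (1 / 8)) := by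
    refine Real.rpow_le_rpow_of_exponent_le hlog.le ?_
    have := min_le_left (ε / 8) (1 / 8 : ℝ)
    linarith
  have h3 : 0 < (Real.log x) ^ ((κ : ℝ) - ε) := Real.rpow_pos_of_pos (by linarith) _
  have h4 : (0 : ℝ) ≤ C * x := by positivity
  exact div_le_div_of_nonneg_left h4 h3 h2

/-- the non-prime orders are negligible with respect to the primes -/
lemma nonprime_tendsto {m κ : ℕ} (hm : (m = 4 ∧ κ = 2) ∨ (m = 6 ∧ κ = 3)) :
    Tendsto (fun x : ℕ => (nonprimeCount m x : ℝ) / (Nat.primeCounting' x : ℝ)) atTop (𝓝 0) := by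
  have hκ : 2 ≤ κ := by rcases hm with ⟨_, rfl⟩ | ⟨_, rfl⟩ <;> norm_num
  obtain ⟨C, hC⟩ := nonprime_le hm (ε := 1 / 2) (by norm_num)
  have h1 : ∀ᶠ x : ℕ in atTop, (1 / 2 : ℝ) <
      (((Finset.range x).filter Nat.Prime).card : ℝ) * Real.log x / x :=
    PC.primes_all.eventually (lt_mem_nhds (by norm_num))
  have hlim : Tendsto (fun x : ℕ => 2 * |C| * (Real.log x) ^ (-(1 / 2 : ℝ))) atTop (𝓝 0) := by
    have h2 : Tendsto (fun y : ℝ => y ^ (-(1 / 2 : ℝ))) atTop (𝓝 0) :=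
      tendsto_rpow_neg_atTop (by norm_num)
    have h3 := (h2.comp (Real.tendsto_log_atTop.comp tendsto_natCast_atTop_atTop)).const_mul
      (2 * |C|)
    rw [mul_zero] at h3
    exact h3
  refine squeeze_zero' (Filter.Eventually.of_forall fun x => by positivity) ?_ hlim
  filter_upwards [h1, eventually_ge_atTop 3] with x hx hx3
  have hx3' : (3 : ℝ) ≤ x := by exact_mod_cast hx3
  have hx0 : (0 : ℝ) < x := by linarith
  have hlog : (1 : ℝ) < Real.log x := by
    rw [Real.lt_log_iff_exp_lt (by positivity)]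
    have := Real.exp_one_lt_d9
    linarith
  have hl0 : 0 < Real.log x := by linarith
  rw [← primeCounting'_eq, lt_div_iff₀ hx0] at hx
  set p : ℝ := (Nat.primeCounting' x : ℝ) with hp
  have h5 : (x : ℝ) / Real.log x < 2 * p := by
    rw [div_lt_iff₀ hl0]
    linarith
  have hp0 : 0 < p := by
    have : (0 : ℝ) < x / Real.log x := by positivity
    linarith
  rw [div_le_iff₀ hp0]
  have h6 : (Real.log x) ^ ((2 : ℝ) - 1 / 2) ≤ (Real.log x) ^ ((κ : ℝ) - 1 / 2) := by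
    refine Real.rpow_le_rpow_of_exponent_le hlog.le ?_
    have : (2 : ℝ) ≤ κ := by exact_mod_cast hκ
    linarith
  have h7 : 0 < (Real.log x) ^ ((2 : ℝ) - 1 / 2) := Real.rpow_pos_of_pos hl0 _
  calc (nonprimeCount m x : ℝ) ≤ C * x / (Real.log x) ^ ((κ : ℝ) - 1 / 2) := hC x hx3
    _ ≤ |C| * x / (Real.log x) ^ ((κ : ℝ) - 1 / 2) := by
        have : 0 < (Real.log x) ^ ((κ : ℝ) - 1 / 2) := Real.rpow_pos_of_pos hl0 _
        gcongr
        exact le_abs_self C
    _ ≤ |C| * x / (Real.log x) ^ ((2 : ℝ) - 1 / 2) := by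
        gcongr
    _ = |C| * (Real.log x) ^ (-(1 / 2 : ℝ)) * (x / Real.log x) := by
        have h8 : (Real.log x) ^ ((2 : ℝ) - 1 / 2) = (Real.log x) ^ (1 / 2 : ℝ) * Real.log x := by
          rw [show (2 : ℝ) - 1 / 2 = 1 / 2 + 1 by norm_num, Real.rpow_add_one hl0.ne']
        have h9 : (Real.log x) ^ (-(1 / 2 : ℝ)) = ((Real.log x) ^ (1 / 2 : ℝ))⁻¹ :=
          Real.rpow_neg hl0.le _
        have h10 : 0 < (Real.log x) ^ (1 / 2 : ℝ) := Real.rpow_pos_of_pos hl0 _
        rw [h8, h9]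
        field_simp
    _ ≤ |C| * (Real.log x) ^ (-(1 / 2 : ℝ)) * (2 * p) := by
        have : 0 < (Real.log x) ^ (-(1 / 2 : ℝ)) := Real.rpow_pos_of_pos hl0 _
        gcongr
    _ = 2 * |C| * (Real.log x) ^ (-(1 / 2 : ℝ)) * p := by ring

/-- `#orders = #primes + #nonprime orders` -/
lemma order_eq {m : ℕ} (hm : 3 ≤ m) (x : ℕ) :
    (orderCount m x : ℝ) = nonprimeCount m x + Nat.primeCounting' x := by
  have hset : {n : ℕ | 2 ≤ n ∧ n < x ∧ HasAbelianSinger n m} =
      {n : ℕ | 2 ≤ n ∧ n < x ∧ ¬ n.Prime ∧ HasAbelianSinger n m} ∪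
      ((Finset.range x).filter Nat.Prime : Finset ℕ) := by
    ext n
    simp only [Set.mem_ofPred_eq, Set.mem_union, Finset.coe_filter, Finset.mem_range]
    constructor
    · rintro ⟨h2, h3, h4⟩
      by_cases hp : n.Prime
      · exact Or.inr ⟨h3, hp⟩
      · exact Or.inl ⟨h2, h3, hp, h4⟩
    · rintro (⟨h2, h3, _, h4⟩ | ⟨h3, hp⟩)
      · exact ⟨h2, h3, h4⟩
      · exact ⟨hp.two_le, h3, PC.singer_prime' hp hm⟩
  have hdisj : Disjoint
      {n : ℕ | 2 ≤ n ∧ n < x ∧ ¬ n.Prime ∧ HasAbelianSinger n m}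
      (((Finset.range x).filter Nat.Prime : Finset ℕ) : Set ℕ) := by
    rw [Set.disjoint_left]
    rintro n ⟨_, _, hnp, _⟩ hn
    rw [Finset.mem_coe, Finset.mem_filter] at hn
    exact hnp hn.2
  rw [orderCount, nonprimeCount, primeCounting'_eq, hset,
    Set.ncard_union_eq hdisj ((Set.finite_lt_nat x).subset fun n hn => hn.2.1)
      (Finset.finite_toSet _), Set.ncard_coe_finset]
  push_cast
  ring

lemma order_tendsto {m κ : ℕ} (hm : (m = 4 ∧ κ = 2) ∨ (m = 6 ∧ κ = 3)) :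
    Tendsto (fun x : ℕ => (orderCount m x : ℝ) / (Nat.primeCounting' x : ℝ)) atTop (𝓝 1) := by
  have h2 : Tendsto (fun x : ℕ => (nonprimeCount m x : ℝ) / (Nat.primeCounting' x : ℝ) + 1)
      atTop (𝓝 (0 + 1)) := (nonprime_tendsto hm).add_const 1
  rw [zero_add] at h2
  refine h2.congr' ?_
  filter_upwards [eventually_ge_atTop 3] with x hx
  have hp0 : (Nat.primeCounting' x : ℝ) ≠ 0 := by
    rw [primeCounting'_eq]
    have : 0 < ((Finset.range x).filter Nat.Prime).card :=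
      Finset.card_pos.mpr ⟨2, Finset.mem_filter.mpr ⟨Finset.mem_range.mpr (by omega),
        Nat.prime_two⟩⟩
    exact_mod_cast this.ne'
  rw [order_eq (by rcases hm with ⟨rfl, _⟩ | ⟨rfl, _⟩ <;> norm_num) x, add_div, div_self hp0]

/-- For `m = 4` and `m = 6` the non-prime orders `n < x` of abelian difference sets with Singer
parameters are `O(x / (log x)^(2 - ε))` and `O(x / (log x)^(3 - ε))`, and the number of all orders
`n < x` is asymptotic to the number of primes. -/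
theorem result :
    (∀ ε : ℝ, 0 < ε → ∃ C : ℝ, ∀ x : ℕ, 3 ≤ x →
      (nonprimeCount 4 x : ℝ) ≤ C * x / (Real.log x) ^ (2 - ε) ∧
      (nonprimeCount 6 x : ℝ) ≤ C * x / (Real.log x) ^ (3 - ε)) ∧
    ∀ m : ℕ, m = 4 ∨ m = 6 →
      Tendsto (fun x : ℕ => (orderCount m x : ℝ) / (Nat.primeCounting' x : ℝ)) atTop (𝓝 1) := by
  refine ⟨fun ε hε => ?_, fun m hm => ?_⟩
  · obtain ⟨C₁, h₁⟩ := nonprime_le (m := 4) (κ := 2) (Or.inl ⟨rfl, rfl⟩) hε
    obtain ⟨C₂, h₂⟩ := nonprime_le (m := 6) (κ := 3) (Or.inr ⟨rfl, rfl⟩) hε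
    refine ⟨max C₁ C₂, fun x hx => ?_⟩
    have hx3 : (3 : ℝ) ≤ x := by exact_mod_cast hx
    have hlog : 0 < Real.log x := Real.log_pos (by linarith)
    have e1 := h₁ x hx
    have e2 := h₂ x hx
    push_cast at e1 e2
    constructor
    · refine e1.trans ?_
      have : 0 < (Real.log x) ^ (2 - ε) := Real.rpow_pos_of_pos hlog _
      gcongr
      exact le_max_left _ _
    · refine e2.trans ?_
      have : 0 < (Real.log x) ^ (3 - ε) := Real.rpow_pos_of_pos hlog _
      gcongr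
      exact le_max_right _ _
  · rcases hm with rfl | rfl
    · exact order_tendsto (κ := 2) (Or.inl ⟨rfl, rfl⟩)
    · exact order_tendsto (κ := 3) (Or.inr ⟨rfl, rfl⟩)

end Pool.Agent.Results.MP_79499b_co.FourSixOrders
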