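import Pool.Agent.Lib.MP_79499b_co.PCMain
import Pool.Agent.Lib.MP_79499b_co.PCSinger
import Pool.Agent.Lib.MP_79499b_co.PCPrimes
import Pool.Agent.Lib.MP_79499b_co.QZ.QT12
import Pool.Agent.Lib.MP_79499b_co.QZ.QT13

/-!
# The asymptotic prime power conjecture for Singer parameters

Let `M` be a nonempty set of numbers `m` such that every odd `m` in `M` has a composite divisor
`≤ L` and every even `m` in `M` is `≤ L` and `m / 2` is composite and not a power of `2` (for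
instance `M = {m}` with one such `m`).  The number of `n < x` such that for some `m ∈ M` some
finite group (nilpotent if `m` is even) of order `(n^m - 1)/(n - 1)` contains a difference set
with the Singer parameters is asymptotic to the number of primes `p < x`: every prime is such
an order, and the non-prime ones are `o(π(x))`; all but `O(x / (log x)^(1 + c))` of them have the
form `e s²` or `e s² q` with `e ≤ L` and `q` prime.
-/

set_option autoImplicit false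

namespace Pool.Agent.Results.MP_79499b_co.OrdersAsymptoticToPrimes

open Pool.Agent.Lib.MP_79499b_co Filter Topology

/-- Some finite group `G` of order `v = (n^m - 1)/(n - 1)`, nilpotent if `m` is even, contains a
difference set with the Singer parameters `(v, k, λ)`, `k = (n^(m-1) - 1)/(n - 1)`,
`λ = (n^(m-2) - 1)/(n - 1)`. -/
def IsOrder (n m : ℕ) : Prop :=
  ∃ (G : Type) (_ : Group G) (_ : Fintype G) (_ : DecidableEq G) (D : Finset G),
    (Even m → Group.IsNilpotent G) ∧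
    Fintype.card G * (n - 1) = n ^ m - 1 ∧
    D.card * (n - 1) = n ^ (m - 1) - 1 ∧
    ∀ g : G, g ≠ 1 →
      ((D ×ˢ D).filter (fun p : G × G => p.1 * p.2⁻¹ = g)).card * (n - 1) = n ^ (m - 2) - 1

/-- The number of all `n` with `2 ≤ n < x` and `IsOrder n m` for some `m ∈ M`. -/
noncomputable def orderCount (M : Set ℕ) (x : ℕ) : ℕ :=
  Set.ncard {n : ℕ | 2 ≤ n ∧ n < x ∧ ∃ m ∈ M, IsOrder n m}

/-- The number of the `n` of `orderCount M x` that are not primes. -/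
noncomputable def nonprimeCount (M : Set ℕ) (x : ℕ) : ℕ :=
  Set.ncard {n : ℕ | 2 ≤ n ∧ n < x ∧ ¬ n.Prime ∧ ∃ m ∈ M, IsOrder n m}

/-- The number of the `n` of `orderCount M x` that are neither `e s ^ 2` nor `e s ^ 2 q` with
`e ≤ L` and `q` prime. -/
noncomputable def exceptionalCount (L : ℕ) (M : Set ℕ) (x : ℕ) : ℕ :=
  Set.ncard {n : ℕ | 2 ≤ n ∧ n < x ∧ (¬ ∃ e s q : ℕ, e ≤ L ∧ (q = 1 ∨ q.Prime) ∧
    n = e * s ^ 2 * q) ∧ ∃ m ∈ M, IsOrder n m}

lemma of_prime {p m : ℕ} (hp : p.Prime) (hm : 3 ≤ m) : IsOrder p m := by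
  obtain ⟨G, h1, h2, h3, D, hG, hD, hlam⟩ := PC.singer_prime' hp hm
  exact ⟨G, inferInstance, h2, h3, D, fun _ => inferInstance, hG, hD, hlam⟩

lemma exc2_of {n m l : ℕ} (hn : 2 ≤ n) (hm : 3 ≤ m) (hodd : Odd m) (hlm : l ∣ m)
    (h : IsOrder n m) : PC.Exc2 l n := by
  obtain ⟨G, h1, h2, h3, D, -, hG, hD, hlam⟩ := h
  exact PC.exc2_of_singer hn hm hodd hlm D hG hD hlam

lemma nil_of {n s : ℕ} (h : IsOrder n (2 * s)) : DZ.NilOrder n (2 * s) := by
  obtain ⟨G, h1, h2, h3, D, hnil, hG, hD, hlam⟩ := h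
  exact ⟨G, h1, hnil (even_two_mul s), h2, h3, D, hG, hD, hlam⟩

lemma cnt_swap (P : ℕ → Prop) (x : ℕ) : Q38.cnt P x = EO.cnt x P := by
  classical
  rw [Q38.cnt_eq]
  unfold EO.cnt
  congr 2

lemma ncard_eq (P : ℕ → Prop) (x : ℕ) :
    ((Set.ncard {n : ℕ | 2 ≤ n ∧ n < x ∧ P n} : ℕ) : ℝ) = Q38.cnt (fun n => 2 ≤ n ∧ P n) x := by
  unfold Q38.cnt
  congr 2
  ext n
  constructor
  · rintro ⟨h4, h5, h6⟩; exact ⟨h5, h4, h6⟩
  · rintro ⟨h5, h4, h6⟩; exact ⟨h4, h5, h6⟩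

lemma primeCounting'_eq (x : ℕ) :
    (Nat.primeCounting' x : ℝ) = (((Finset.range x).filter Nat.Prime).card : ℝ) := by
  rw [Nat.primeCounting', Nat.count_eq_card_filter_range]

lemma few_exp {P : ℕ → Prop} {c c' : ℝ} (h : Q38.Few P c) (hc : c' ≤ c) : Q38.Few P c' := by
  obtain ⟨C, hC, h⟩ := h
  refine ⟨C, hC, fun x hx => (h x hx).trans ?_⟩
  have hx3 : (3 : ℝ) ≤ x := by exact_mod_cast hx
  have hlog : (1 : ℝ) < Real.log x := by
    rw [Real.lt_log_iff_exp_lt (by positivity)]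
    have := Real.exp_one_lt_d9
    linarith
  have h1 : (Real.log x) ^ c' ≤ (Real.log x) ^ c := Real.rpow_le_rpow_of_exponent_le hlog.le hc
  have h2 : 0 < (Real.log x) ^ c' := Real.rpow_pos_of_pos (by linarith) _
  have h3 : (0 : ℝ) ≤ x := by linarith
  gcongr

lemma exists_few (S : Finset ℕ) (P : ℕ → ℕ → Prop)
    (h : ∀ d ∈ S, ∃ c : ℝ, 0 < c ∧ Q38.Few (P d) (1 + c)) :
    ∃ c : ℝ, 0 < c ∧ Q38.Few (fun n => ∃ d ∈ S, P d n) (1 + c) := by
  have key : ∃ c : ℝ, 0 < c ∧ ∀ d ∈ S, Q38.Few (P d) (1 + c) := by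
    classical
    induction S using Finset.induction_on with
    | empty => exact ⟨1, one_pos, fun d hd => absurd hd (Finset.notMem_empty d)⟩
    | insert a S ha ih =>
      obtain ⟨c₁, hc₁, h₁⟩ := ih fun d hd => h d (Finset.mem_insert_of_mem hd)
      obtain ⟨c₂, hc₂, h₂⟩ := h a (Finset.mem_insert_self a S)
      refine ⟨min c₁ c₂, lt_min hc₁ hc₂, fun d hd => ?_⟩
      rw [Finset.mem_insert] at hd
      rcases hd with rfl | hd
      · exact few_exp h₂ (by linarith [min_le_right c₁ c₂])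
      · exact few_exp (h₁ d hd) (by linarith [min_le_left c₁ c₂])
  obtain ⟨c, hc, h⟩ := key
  exact ⟨c, hc, Q38.Few.exists h⟩

/-- a small set is negligible with respect to the primes -/
lemma tendsto_of_small {P : ℕ → Prop} (h : PC.Small P) :
    Tendsto (fun x : ℕ => Q38.cnt P x / (Nat.primeCounting' x : ℝ)) atTop (𝓝 0) := by
  have h1 : ∀ᶠ x : ℕ in atTop, (1 / 2 : ℝ) <
      (((Finset.range x).filter Nat.Prime).card : ℝ) * Real.log x / x :=
    PC.primes_all.eventually (lt_mem_nhds (by norm_num))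
  rw [Metric.tendsto_atTop]
  intro ε hε
  obtain ⟨x₀, hx₀⟩ := h (ε / 4) (by positivity)
  obtain ⟨x₁, hx₁⟩ := Filter.eventually_atTop.mp h1
  refine ⟨max x₀ (max x₁ 3), fun x hx => ?_⟩
  have h2 := hx₀ x (le_trans (le_max_left _ _) hx)
  have h3 := hx₁ x (le_trans (le_trans (le_max_left _ _) (le_max_right _ _)) hx)
  have h4 : 3 ≤ x := le_trans (le_trans (le_max_right _ _) (le_max_right _ _)) hx
  have hx3 : (3 : ℝ) ≤ x := by exact_mod_cast h4
  have hlog : (1 : ℝ) < Real.log x := by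
    rw [Real.lt_log_iff_exp_lt (by positivity)]
    have := Real.exp_one_lt_d9
    linarith
  have hx0 : (0 : ℝ) < x := by linarith
  rw [← primeCounting'_eq, lt_div_iff₀ hx0] at h3
  set p : ℝ := (Nat.primeCounting' x : ℝ) with hp
  have hc0 : 0 ≤ Q38.cnt P x := by unfold Q38.cnt; positivity
  have h5 : (x : ℝ) / Real.log x < 2 * p := by
    rw [div_lt_iff₀ (by linarith)]
    linarith
  have hp0 : 0 < p := by
    have : (0 : ℝ) < x / Real.log x := by positivity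
    linarith
  rw [dist_zero_right, Real.norm_of_nonneg (by positivity), div_lt_iff₀ hp0]
  calc Q38.cnt P x ≤ ε / 4 * (x / Real.log x) := h2
    _ ≤ ε / 4 * (2 * p) := mul_le_mul_of_nonneg_left h5.le (by positivity)
    _ < ε * p := by nlinarith

theorem result (L : ℕ) (M : Set ℕ)
    (hM : ∀ m ∈ M, (Odd m ∧ ∃ d : ℕ, d ∣ m ∧ 1 < d ∧ ¬ d.Prime ∧ d ≤ L) ∨
      (m ≤ L ∧ ∃ s : ℕ, m = 2 * s ∧ 2 ≤ s ∧ ¬ s.Prime ∧ ∀ k : ℕ, s ≠ 2 ^ k)) :
    Tendsto (fun x : ℕ => (nonprimeCount M x : ℝ) / (Nat.primeCounting' x : ℝ)) atTop (𝓝 0) ∧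
    (M.Nonempty →
      Tendsto (fun x : ℕ => (orderCount M x : ℝ) / (Nat.primeCounting' x : ℝ)) atTop (𝓝 1)) ∧
    ∃ c C : ℝ, 0 < c ∧ ∀ x : ℕ, 3 ≤ x →
      (exceptionalCount L M x : ℝ) ≤ C * (x / (Real.log x) ^ (1 + c)) := by
  classical
  have hge : ∀ m ∈ M, 3 ≤ m ∧ ((Odd m ∧ ∃ d ∈ (Finset.range (L + 1)).filter
        (fun d => 3 ≤ d ∧ Odd d ∧ ¬ d.Prime), d ∣ m) ∨
      ∃ s ∈ (Finset.range (L + 1)).filter (fun s => 2 ≤ s ∧ 2 ≤ QZ.rr s ∧ 2 * s ≤ L),
        m = 2 * s) := by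
    intro m hm
    rcases hM m hm with ⟨hodd, d, hdm, hd1, hdp, hdL⟩ | ⟨hmL, s, rfl, hs, hsp, hs2⟩
    · have h1 : Odd d := Odd.of_dvd_nat hodd hdm
      have h2 : d ≤ m := Nat.le_of_dvd hodd.pos hdm
      obtain ⟨k, hk⟩ := h1
      refine ⟨by omega, Or.inl ⟨hodd, d, ?_, hdm⟩⟩
      rw [Finset.mem_filter, Finset.mem_range]
      exact ⟨by omega, by omega, ⟨k, hk⟩, hdp⟩
    · refine ⟨by omega, Or.inr ⟨s, ?_, rfl⟩⟩
      rw [Finset.mem_filter, Finset.mem_range]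
      exact ⟨by omega, hs, QZ.rr_two s hs hsp hs2, hmL⟩
  have hsmall : PC.Small (fun n => 2 ≤ n ∧ ¬ n.Prime ∧ ∃ m ∈ M, IsOrder n m) := by
    have h1 : PC.Small (fun n => ∃ d ∈ (Finset.range (L + 1)).filter
        (fun d => 3 ≤ d ∧ Odd d ∧ ¬ d.Prime), 2 ≤ n ∧ ¬ n.Prime ∧ PC.Exc2 d n) := by
      apply PC.small_exists
      intro d hd
      rw [Finset.mem_filter] at hd
      exact PC.main_composite hd.2.1 hd.2.2.1 hd.2.2.2
    have h2 : PC.Small (fun n => ∃ s ∈ (Finset.range (L + 1)).filter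
        (fun s => 2 ≤ s ∧ 2 ≤ QZ.rr s ∧ 2 * s ≤ L),
        2 ≤ n ∧ ¬ n.Prime ∧ DZ.NilOrder n (2 * s)) := by
      apply PC.small_exists
      intro s hs η hη
      rw [Finset.mem_filter] at hs
      obtain ⟨x₀, h⟩ := QZ.even_nonprime s hs.2.1 hs.2.2.1 η hη
      refine ⟨x₀, fun x hx => ?_⟩
      rw [cnt_swap]
      exact h x hx
    refine (h1.or h2).mono ?_
    rintro n ⟨hn, hnp, m, hm, hS⟩
    obtain ⟨hm3, ⟨hodd, d, hd, hdm⟩ | ⟨s, hs, rfl⟩⟩ := hge m hm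
    · exact Or.inl ⟨d, hd, hn, hnp, exc2_of hn hm3 hodd hdm hS⟩
    · exact Or.inr ⟨s, hs, hn, hnp, nil_of hS⟩
  have h0 : Tendsto (fun x : ℕ => (nonprimeCount M x : ℝ) / (Nat.primeCounting' x : ℝ)) atTop
      (𝓝 0) := by
    refine (tendsto_of_small hsmall).congr fun x => ?_
    rw [nonprimeCount, ncard_eq]
  refine ⟨h0, fun hne => ?_, ?_⟩
  swap
  · obtain ⟨c₁, hc₁, h1⟩ := exists_few ((Finset.range (L + 1)).filter
      (fun d => 3 ≤ d ∧ Odd d ∧ ¬ d.Prime)) (fun d n => 1 ≤ n ∧ Q38.Exc d n ∧ ¬ PC.Shape d n)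
      (fun d hd => by
        rw [Finset.mem_filter] at hd
        exact PC.nt3 hd.2.1 hd.2.2.1 hd.2.2.2)
    obtain ⟨c₂, hc₂, h2⟩ := exists_few ((Finset.range (L + 1)).filter
      (fun s => 2 ≤ s ∧ 2 ≤ QZ.rr s ∧ 2 * s ≤ L)) (fun s n => n ≠ 0 ∧ DZ.NilOrder n (2 * s) ∧
        ¬ ∃ e k p : ℕ, e ∣ 2 * s ∧ p.Prime ∧ n = e * k ^ 2 * p)
      (fun s hs => by
        rw [Finset.mem_filter] at hs
        obtain ⟨c, C, hc, hC, h⟩ := QZ.even_shape s hs.2.1 hs.2.2.1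
        refine ⟨c, hc, C, hC, fun x hx => ?_⟩
        rw [cnt_swap]
        exact h x hx)
    have h1' := few_exp h1 (c' := 1 + min c₁ c₂) (by linarith [min_le_left c₁ c₂])
    have h2' := few_exp h2 (c' := 1 + min c₁ c₂) (by linarith [min_le_right c₁ c₂])
    obtain ⟨C, -, hC⟩ := h1'.or h2'
    refine ⟨min c₁ c₂, C, lt_min hc₁ hc₂, fun x hx => le_trans ?_ (hC x hx)⟩
    rw [exceptionalCount, ncard_eq]
    refine Q38.cnt_mono ?_ x
    rintro n ⟨hn, hshape, m, hm, hS⟩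
    obtain ⟨hm3, ⟨hodd, d, hd, hdm⟩ | ⟨s, hs, rfl⟩⟩ := hge m hm
    · left
      have hd' := hd
      rw [Finset.mem_filter, Finset.mem_range] at hd'
      refine ⟨d, hd, by omega, PC.exc_of_exc2 hd'.2.2.1 (exc2_of hn hm3 hodd hdm hS), ?_⟩
      rintro ⟨e, s, q, hed, hq, hn'⟩
      exact hshape ⟨e, s, q, (Nat.le_of_dvd (by omega) hed).trans (by omega), hq, hn'⟩
    · right
      have hs' := hs
      rw [Finset.mem_filter, Finset.mem_range] at hs'
      refine ⟨s, hs, by omega, nil_of hS, ?_⟩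
      rintro ⟨e, k, p, hes, hp, hn'⟩
      exact hshape ⟨e, k, p, (Nat.le_of_dvd (by omega) hes).trans hs'.2.2.2, Or.inr hp, hn'⟩
  obtain ⟨m₀, hm₀⟩ := hne
  obtain ⟨hm3, -⟩ := hge m₀ hm₀
  have h1 : ∀ x : ℕ, (orderCount M x : ℝ) = nonprimeCount M x + Nat.primeCounting' x := by
    intro x
    have hset : {n : ℕ | 2 ≤ n ∧ n < x ∧ ∃ m ∈ M, IsOrder n m} =
        {n : ℕ | 2 ≤ n ∧ n < x ∧ ¬ n.Prime ∧ ∃ m ∈ M, IsOrder n m} ∪
        ((Finset.range x).filter Nat.Prime : Finset ℕ) := by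
      ext n
      simp only [Set.mem_ofPred_eq, Set.mem_union, Finset.coe_filter, Finset.mem_range]
      constructor
      · rintro ⟨h2, h3, h4⟩
        by_cases hp : n.Prime
        · exact Or.inr ⟨h3, hp⟩
        · exact Or.inl ⟨h2, h3, hp, h4⟩
      · rintro (⟨h2, h3, _, h4⟩ | ⟨h3, hp⟩)
        · exact ⟨h2, h3, h4⟩
        · exact ⟨hp.two_le, h3, m₀, hm₀, of_prime hp hm3⟩
    have hdisj : Disjoint
        {n : ℕ | 2 ≤ n ∧ n < x ∧ ¬ n.Prime ∧ ∃ m ∈ M, IsOrder n m}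
        (((Finset.range x).filter Nat.Prime : Finset ℕ) : Set ℕ) := by
      rw [Set.disjoint_left]
      rintro n ⟨_, _, hnp, _⟩ hn
      rw [Finset.mem_coe, Finset.mem_filter] at hn
      exact hnp hn.2
    rw [orderCount, nonprimeCount, primeCounting'_eq, hset,
      Set.ncard_union_eq hdisj ((Set.finite_lt_nat x).subset fun n hn => hn.2.1)
        (Finset.finite_toSet _), Set.ncard_coe_finset]
    push_cast
    ring
  have h2 : Tendsto (fun x : ℕ => (nonprimeCount M x : ℝ) / (Nat.primeCounting' x : ℝ) + 1)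
      atTop (𝓝 (0 + 1)) := h0.add_const 1
  rw [zero_add] at h2
  refine h2.congr' ?_
  filter_upwards [eventually_ge_atTop 3] with x hx
  have hp0 : (Nat.primeCounting' x : ℝ) ≠ 0 := by
    rw [primeCounting'_eq]
    have : 0 < ((Finset.range x).filter Nat.Prime).card :=
      Finset.card_pos.mpr ⟨2, Finset.mem_filter.mpr ⟨Finset.mem_range.mpr (by omega),
        Nat.prime_two⟩⟩
    exact_mod_cast this.ne'
  rw [h1 x, add_div, div_self hp0]

end Pool.Agent.Results.MP_79499b_co.OrdersAsymptoticToPrimes
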