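import Pool.Agent.Lib.MP_79499b_co.PL.ZH
import Pool.Agent.Lib.MP_79499b_co.PCSinger
import Pool.Agent.Lib.MP_79499b_co.PCPrimes

/-!
# Planar difference sets in arbitrary finite groups: all but few orders are primes

`M` is a set of odd numbers `m`, each with a prime factor `l ≡ 3 (mod 4)`, `l ≤ L` (for instance
`M = {3}`, the planar difference sets, or `M = {9}, {7}, {11}, ...`).  A number `n` is counted if
for some `m ∈ M` some finite group (not assumed abelian) has a difference set with the Singer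
parameters for `(n, m)`, and `3 ∣ m` or `n ≡ 1, 2 (mod 4)`.  Among these numbers the primes have
relative density one, and all but `O(x / (log x)^(3/2 - ε))` of those below `x` have the form `s²`
or `s² q` with `q` prime.  For planar difference sets in abelian groups the number of all non-prime
orders below `x` is `O(x / (log x)^(3/2 - ε))`.
-/

set_option autoImplicit false

namespace Pool.Agent.Results.MP_79499b_co.PlanarOrders

open Pool.Agent.Lib.MP_79499b_co Filter Topology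

/-- Some finite group of order `v = (n^m - 1)/(n - 1)` contains a difference set with the Singer
parameters `(v, k, λ)`, `k = (n^(m-1) - 1)/(n - 1)`, `λ = (n^(m-2) - 1)/(n - 1)`. -/
def HasSingerDifferenceSet (n m : ℕ) : Prop :=
  ∃ (G : Type) (_ : Group G) (_ : Fintype G) (_ : DecidableEq G) (D : Finset G),
    Fintype.card G * (n - 1) = n ^ m - 1 ∧
    D.card * (n - 1) = n ^ (m - 1) - 1 ∧
    ∀ g : G, g ≠ 1 →
      ((D ×ˢ D).filter (fun p : G × G => p.1 * p.2⁻¹ = g)).card * (n - 1) = n ^ (m - 2) - 1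

/-- Some finite abelian group of order `n² + n + 1` contains a planar difference set of order `n`,
that is, a set of `n + 1` elements such that every non-identity element has exactly one
representation as a quotient of two of them. -/
def HasAbelianPlanarDifferenceSet (n : ℕ) : Prop :=
  ∃ (G : Type) (_ : CommGroup G) (_ : Fintype G) (_ : DecidableEq G) (D : Finset G),
    Fintype.card G = n ^ 2 + n + 1 ∧ D.card = n + 1 ∧
    ∀ g : G, g ≠ 1 → ((D ×ˢ D).filter (fun p : G × G => p.1 * p.2⁻¹ = g)).card = 1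

/-- For some `m ∈ M` some finite group contains a difference set with the Singer parameters for
`(n, m)`, and `m` is divisible by `3` or `n ≡ 1, 2 (mod 4)`. -/
def IsOrder (M : Set ℕ) (n : ℕ) : Prop :=
  ∃ m ∈ M, HasSingerDifferenceSet n m ∧ (3 ∣ m ∨ n % 4 = 1 ∨ n % 4 = 2)

/-- The number of all `n` with `2 ≤ n < x` and `IsOrder M n`. -/
noncomputable def orderCount (M : Set ℕ) (x : ℕ) : ℕ :=
  Set.ncard {n : ℕ | 2 ≤ n ∧ n < x ∧ IsOrder M n}

/-- The number of the `n` of `orderCount M x` that are not primes. -/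
noncomputable def nonprimeCount (M : Set ℕ) (x : ℕ) : ℕ :=
  Set.ncard {n : ℕ | 2 ≤ n ∧ n < x ∧ ¬ n.Prime ∧ IsOrder M n}

/-- The number of the `n` of `orderCount M x` that are neither `s ^ 2` nor `s ^ 2 q` with `q`
prime. -/
noncomputable def exceptionalCount (M : Set ℕ) (x : ℕ) : ℕ :=
  Set.ncard {n : ℕ | 2 ≤ n ∧ n < x ∧ (¬ ∃ s q : ℕ, (q = 1 ∨ q.Prime) ∧ n = s ^ 2 * q) ∧
    IsOrder M n}

/-- The number of the non-primes `n` with `2 ≤ n < x` for which some finite abelian group contains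
a planar difference set of order `n`. -/
noncomputable def abelianNonprimeCount (x : ℕ) : ℕ :=
  Set.ncard {n : ℕ | 2 ≤ n ∧ n < x ∧ ¬ n.Prime ∧ HasAbelianPlanarDifferenceSet n}

lemma of_prime {p m : ℕ} (hp : p.Prime) (hm : 3 ≤ m) : HasSingerDifferenceSet p m := by
  obtain ⟨G, h1, h2, h3, D, hG, hD, hlam⟩ := PC.singer_prime' hp hm
  exact ⟨G, inferInstance, h2, h3, D, hG, hD, hlam⟩

lemma exc2_of {n m l : ℕ} (hn : 2 ≤ n) (hm : 3 ≤ m) (hodd : Odd m) (hlm : l ∣ m)
    (h : HasSingerDifferenceSet n m) : PC.Exc2 l n := by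
  obtain ⟨G, h1, h2, h3, D, hG, hD, hlam⟩ := h
  exact PC.exc2_of_singer hn hm hodd hlm D hG hD hlam

lemma ncard_eq (P : ℕ → Prop) (x : ℕ) :
    ((Set.ncard {n : ℕ | 2 ≤ n ∧ n < x ∧ P n} : ℕ) : ℝ) = Q38.cnt (fun n => 2 ≤ n ∧ P n) x := by
  unfold Q38.cnt
  congr 2
  ext n
  constructor
  · rintro ⟨h4, h5, h6⟩; exact ⟨h5, h4, h6⟩
  · rintro ⟨h5, h4, h6⟩; exact ⟨h4, h5, h6⟩

lemma primeCounting'_eq (x : ℕ) :
    (Nat.primeCounting' x : ℝ) = (((Finset.range x).filter Nat.Prime).card : ℝ) := by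
  rw [Nat.primeCounting', Nat.count_eq_card_filter_range]

/-- a small set is negligible with respect to the primes -/
lemma tendsto_of_small {P : ℕ → Prop} (h : PC.Small P) :
    Tendsto (fun x : ℕ => Q38.cnt P x / (Nat.primeCounting' x : ℝ)) atTop (𝓝 0) := by
  have h1 : ∀ᶠ x : ℕ in atTop, (1 / 2 : ℝ) <
      (((Finset.range x).filter Nat.Prime).card : ℝ) * Real.log x / x :=
    PC.primes_all.eventually (lt_mem_nhds (by norm_num))
  rw [Metric.tendsto_atTop]
  intro ε hε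
  obtain ⟨x₀, hx₀⟩ := h (ε / 4) (by positivity)
  obtain ⟨x₁, hx₁⟩ := Filter.eventually_atTop.mp h1
  refine ⟨max x₀ (max x₁ 3), fun x hx => ?_⟩
  have h2 := hx₀ x (le_trans (le_max_left _ _) hx)
  have h3 := hx₁ x (le_trans (le_trans (le_max_left _ _) (le_max_right _ _)) hx)
  have h4 : 3 ≤ x := le_trans (le_trans (le_max_right _ _) (le_max_right _ _)) hx
  have hx3 : (3 : ℝ) ≤ x := by exact_mod_cast h4
  have hlog : (1 : ℝ) < Real.log x := by
    rw [Real.lt_log_iff_exp_lt (by positivity)]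
    have := Real.exp_one_lt_d9
    linarith
  have hx0 : (0 : ℝ) < x := by linarith
  rw [← primeCounting'_eq, lt_div_iff₀ hx0] at h3
  set p : ℝ := (Nat.primeCounting' x : ℝ) with hp
  have hc0 : 0 ≤ Q38.cnt P x := by unfold Q38.cnt; positivity
  have h5 : (x : ℝ) / Real.log x < 2 * p := by
    rw [div_lt_iff₀ (by linarith)]
    linarith
  have hp0 : 0 < p := by
    have : (0 : ℝ) < x / Real.log x := by positivity
    linarith
  rw [dist_zero_right, Real.norm_of_nonneg (by positivity), div_lt_iff₀ hp0]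
  calc Q38.cnt P x ≤ ε / 4 * (x / Real.log x) := h2
    _ ≤ ε / 4 * (2 * p) := mul_le_mul_of_nonneg_left h5.le (by positivity)
    _ < ε * p := by nlinarith

/-- primes `≡ 1, 2 (mod 4)` are half of all primes -/
lemma half_primes : Tendsto (fun x : ℕ =>
    ((((Finset.range x).filter (fun p => p.Prime ∧ (p % 4 = 1 ∨ p % 4 = 2))).card : ℕ) : ℝ) /
      (Nat.primeCounting' x : ℝ)) atTop (𝓝 (1 / 2)) := by
  have h1 := PC.primes_ap (q := 4) (a := 1) (by norm_num) (by norm_num)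
  have h2 := PC.primes_all
  have hφ : (Nat.totient 4 : ℝ) = 2 := by
    rw [show Nat.totient 4 = 2 by decide]; norm_num
  rw [hφ] at h1
  have hl : Tendsto (fun x : ℕ => Real.log x / x) atTop (𝓝 0) := by
    have h := Real.isLittleO_log_id_atTop.tendsto_div_nhds_zero
    exact h.comp tendsto_natCast_atTop_atTop
  have h3 := (h1.add hl).div h2 one_ne_zero
  rw [add_zero, div_one] at h3
  refine h3.congr' ?_
  filter_upwards [eventually_ge_atTop 3] with x hx
  have hx3 : (3 : ℝ) ≤ x := by exact_mod_cast hx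
  have hlog : 0 < Real.log x := Real.log_pos (by linarith)
  have hx0 : (0 : ℝ) < x := by linarith
  have hc : ((Finset.range x).filter (fun p => p.Prime ∧ (p % 4 = 1 ∨ p % 4 = 2))).card =
      ((Finset.range x).filter (fun q => q.Prime ∧ q % 4 = 1 % 4)).card + 1 := by
    have hset : (Finset.range x).filter (fun p => p.Prime ∧ (p % 4 = 1 ∨ p % 4 = 2)) =
        insert 2 ((Finset.range x).filter (fun q => q.Prime ∧ q % 4 = 1 % 4)) := by
      ext p
      rw [Finset.mem_insert, Finset.mem_filter, Finset.mem_filter, Finset.mem_range]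
      constructor
      · rintro ⟨h4, h5, h6 | h6⟩
        · exact Or.inr ⟨h4, h5, h6⟩
        · left
          exact ((Nat.prime_dvd_prime_iff_eq Nat.prime_two h5).mp (by omega)).symm
      · rintro (rfl | ⟨h4, h5, h6⟩)
        · exact ⟨by omega, Nat.prime_two, Or.inr rfl⟩
        · exact ⟨h4, h5, Or.inl h6⟩
    rw [hset, Finset.card_insert_of_notMem]
    rw [Finset.mem_filter]
    rintro ⟨-, -, h⟩
    norm_num at h
  rw [hc, primeCounting'_eq]
  push_cast
  simp only [Pi.div_apply]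
  field_simp

/-- the multipliers of a planar difference set in an abelian group -/
lemma planar_abelian {n : ℕ} (hn : 2 ≤ n) (h : HasAbelianPlanarDifferenceSet n)
    (hnp : ¬ n.Prime) (hsq : ¬ Q38.IsSq n) : PC.Exc2 3 n ∧ Q38.HH 3 n := by
  obtain ⟨G, _, _, _, D, hG, hD, hlam⟩ := h
  refine ⟨?_, (Q38.planar_facts hn D hG hD hlam hsq hnp).2⟩
  intro p hp ho w hw hwn j hwj
  have hn0 : n ≠ 0 := by omega
  have hpn : p ∣ n := by
    apply (hp.dvd_iff_one_le_factorization hn0).mpr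
    obtain ⟨t, ht⟩ := ho
    omega
  rw [Q38.Phi_three] at hwn
  exact Q38.planar_excl hn D hG hD hlam hp ho hp hpn hw hwn hwj

/-- orders are primes in a set of primes and non-primes -/
lemma count_split (M : Set ℕ) (Q : ℕ → Prop) (hQ : ∀ p : ℕ, p.Prime → (IsOrder M p ↔ Q p))
    (x : ℕ) [DecidablePred Q] : (orderCount M x : ℝ) = nonprimeCount M x +
      ((((Finset.range x).filter (fun p => p.Prime ∧ Q p)).card : ℕ) : ℝ) := by
  have hset : {n : ℕ | 2 ≤ n ∧ n < x ∧ IsOrder M n} =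
      {n : ℕ | 2 ≤ n ∧ n < x ∧ ¬ n.Prime ∧ IsOrder M n} ∪
      ((Finset.range x).filter (fun p => p.Prime ∧ Q p) : Finset ℕ) := by
    ext n
    simp only [Set.mem_ofPred_eq, Set.mem_union, Finset.coe_filter, Finset.mem_range]
    constructor
    · rintro ⟨h2, h3, h5⟩
      by_cases hp : n.Prime
      · exact Or.inr ⟨h3, hp, (hQ n hp).mp h5⟩
      · exact Or.inl ⟨h2, h3, hp, h5⟩
    · rintro (⟨h2, h3, _, h5⟩ | ⟨h3, hp, h4⟩)
      · exact ⟨h2, h3, h5⟩
      · exact ⟨hp.two_le, h3, (hQ n hp).mpr h4⟩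
  have hdisj : Disjoint {n : ℕ | 2 ≤ n ∧ n < x ∧ ¬ n.Prime ∧ IsOrder M n}
      (((Finset.range x).filter (fun p => p.Prime ∧ Q p) : Finset ℕ) : Set ℕ) := by
    rw [Set.disjoint_left]
    rintro n ⟨_, _, hnp, _⟩ hn
    rw [Finset.mem_coe, Finset.mem_filter] at hn
    exact hnp hn.2.1
  rw [orderCount, nonprimeCount, hset,
    Set.ncard_union_eq hdisj ((Set.finite_lt_nat x).subset fun n hn => hn.2.1)
      (Finset.finite_toSet _), Set.ncard_coe_finset]
  push_cast
  ring

theorem result (L : ℕ) (M : Set ℕ)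
    (hM : ∀ m ∈ M, Odd m ∧ ∃ l : ℕ, l.Prime ∧ l ∣ m ∧ l % 4 = 3 ∧ l ≤ L) :
    Tendsto (fun x : ℕ => (nonprimeCount M x : ℝ) / (Nat.primeCounting' x : ℝ)) atTop (𝓝 0) ∧
    ((∃ m ∈ M, 3 ∣ m) →
      Tendsto (fun x : ℕ => (orderCount M x : ℝ) / (Nat.primeCounting' x : ℝ)) atTop (𝓝 1)) ∧
    (M.Nonempty → (∀ m ∈ M, ¬ 3 ∣ m) →
      Tendsto (fun x : ℕ => (orderCount M x : ℝ) / (Nat.primeCounting' x : ℝ)) atTop
        (𝓝 (1 / 2))) ∧
    (∀ ε : ℝ, 0 < ε → ∃ C : ℝ, ∀ x : ℕ, 3 ≤ x →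
      (exceptionalCount M x : ℝ) ≤ C * (x / (Real.log x) ^ (3 / 2 - ε))) ∧
    ∀ ε : ℝ, 0 < ε → ∃ C : ℝ, ∀ x : ℕ, 3 ≤ x →
      (abelianNonprimeCount x : ℝ) ≤ C * (x / (Real.log x) ^ (3 / 2 - ε)) := by
  classical
  have hge : ∀ m ∈ M, ∃ l : ℕ, l.Prime ∧ l ∣ m ∧ l % 4 = 3 ∧ l ≤ L ∧ 3 ≤ m ∧ Odd m := by
    intro m hm
    obtain ⟨hodd, l, hl, hlm, hl4, hlL⟩ := hM m hm
    have h2 : l ≤ m := Nat.le_of_dvd hodd.pos hlm
    exact ⟨l, hl, hlm, hl4, hlL, by omega, hodd⟩
  have hsmall : PC.Small (fun n => 2 ≤ n ∧ ¬ n.Prime ∧ IsOrder M n) := by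
    have h1 : PC.Small (fun n => ∃ l ∈ (Finset.range (L + 1)).filter
        (fun l => l.Prime ∧ l % 4 = 3), 2 ≤ n ∧ (n % 4 = 1 ∨ n % 4 = 2) ∧ ¬ n.Prime ∧
          PC.Exc2 l n) := by
      apply PC.small_exists
      intro l hl
      rw [Finset.mem_filter] at hl
      exact PC.main_prime hl.2.1 hl.2.2
    refine (h1.or PL.ZH_main).mono ?_
    rintro n ⟨hn, hnp, m, hm, hS, hn4⟩
    obtain ⟨l, hl, hlm, hl4, hlL, hm3, hodd⟩ := hge m hm
    rcases hn4 with h3 | hn4
    · exact Or.inr ⟨hn, hnp, exc2_of hn hm3 hodd h3 hS⟩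
    · left
      refine ⟨l, ?_, hn, hn4, hnp, exc2_of hn hm3 hodd hlm hS⟩
      rw [Finset.mem_filter, Finset.mem_range]
      exact ⟨by omega, hl, hl4⟩
  have h0 : Tendsto (fun x : ℕ => (nonprimeCount M x : ℝ) / (Nat.primeCounting' x : ℝ)) atTop
      (𝓝 0) := by
    refine (tendsto_of_small hsmall).congr fun x => ?_
    rw [nonprimeCount, ncard_eq]
  refine ⟨h0, ?_, ?_, fun ε hε => ?_, fun ε hε => ?_⟩
  · rintro ⟨m₀, hm₀, h3⟩
    obtain ⟨-, -, -, -, -, hm3, -⟩ := hge m₀ hm₀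
    have h1 : ∀ᶠ x : ℕ in atTop, (1 : ℝ) + (nonprimeCount M x : ℝ) / (Nat.primeCounting' x : ℝ) =
        (orderCount M x : ℝ) / (Nat.primeCounting' x : ℝ) := by
      filter_upwards [eventually_ge_atTop 3] with x hx
      have h2 := count_split M (fun _ => True) (fun p hp => iff_of_true
        ⟨m₀, hm₀, of_prime hp hm3, Or.inl h3⟩ trivial) x
      have h4 : (((Finset.range x).filter (fun p => p.Prime ∧ True)).card : ℝ) =
          (Nat.primeCounting' x : ℝ) := by
        rw [primeCounting'_eq]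
        simp only [and_true]
      have h5 : (0 : ℝ) < (Nat.primeCounting' x : ℝ) := by
        rw [primeCounting'_eq]
        have : 2 ∈ (Finset.range x).filter Nat.Prime := by
          rw [Finset.mem_filter, Finset.mem_range]
          exact ⟨by omega, Nat.prime_two⟩
        exact_mod_cast Finset.card_pos.mpr ⟨2, this⟩
      rw [h2, h4, add_div, div_self h5.ne', add_comm]
    have h2 := (tendsto_const_nhds (x := (1 : ℝ)) (f := (atTop : Filter ℕ))).add h0
    rw [add_zero] at h2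
    exact h2.congr' h1
  · rintro ⟨m₀, hm₀⟩ h3
    obtain ⟨-, -, -, -, -, hm3, -⟩ := hge m₀ hm₀
    have h2 := h0.add half_primes
    rw [zero_add] at h2
    refine h2.congr fun x => ?_
    rw [count_split M (fun n => n % 4 = 1 ∨ n % 4 = 2) (fun p hp => ?_) x, add_div]
    constructor
    · rintro ⟨m, hm, -, h4 | h4⟩
      · exact absurd h4 (h3 m hm)
      · exact h4
    · intro h4
      exact ⟨m₀, hm₀, of_prime hp hm3, Or.inr h4⟩
  · have hE : Q38.Few (fun n => 2 ≤ n ∧ (¬ ∃ s q : ℕ, (q = 1 ∨ q.Prime) ∧ n = s ^ 2 * q) ∧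
        IsOrder M n) (3 / 2 - ε) := by
      have h1 : Q38.Few (fun n => ∃ l ∈ (Finset.range (L + 1)).filter
          (fun l => l.Prime ∧ l % 4 = 3), 1 ≤ n ∧ (n % 4 = 1 ∨ n % 4 = 2) ∧ Q38.Exc l n ∧
            Q38.HH l n) (3 / 2 - ε) := by
        apply Q38.Few.exists
        intro l hl
        rw [Finset.mem_filter] at hl
        exact Q38.nt2' hl.2.1 (by omega) hl.2.2 hε
      refine (h1.or (PL.ZG_few hε)).mono ?_
      rintro n ⟨hn, hshape, m, hm, hS, hn4⟩
      obtain ⟨l, hl, hlm, hl4, hlL, hm3, hodd⟩ := hge m hm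
      have hHH : ∀ l' : ℕ, Q38.Exc l' n → Q38.HH l' n := by
        intro l' hexc
        refine Q38.HH_of_exc hn hexc ?_ ?_
        · rintro ⟨b, hb⟩
          exact hshape ⟨b, 1, Or.inl rfl, by rw [mul_one, hb]⟩
        · intro s q hq hnq
          exact hshape ⟨s, q, Or.inr hq, hnq⟩
      rcases hn4 with h3 | hn4
      · right
        have hexc2 := exc2_of hn hm3 hodd h3 hS
        exact ⟨by omega, hexc2, hHH 3 (PC.exc_of_exc2 (by decide) hexc2)⟩
      · left
        have hexc : Q38.Exc l n :=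
          PC.exc_of_exc2 (Nat.odd_iff.mpr (by omega)) (exc2_of hn hm3 hodd hlm hS)
        refine ⟨l, ?_, by omega, hn4, hexc, hHH l hexc⟩
        rw [Finset.mem_filter, Finset.mem_range]
        exact ⟨by omega, hl, hl4⟩
    obtain ⟨C₁, -, hC₁⟩ := hE
    refine ⟨C₁, fun x hx => ?_⟩
    rw [exceptionalCount, ncard_eq]
    exact hC₁ x hx
  · have hE : Q38.Few (fun n => 2 ≤ n ∧ ¬ n.Prime ∧ HasAbelianPlanarDifferenceSet n)
        (3 / 2 - ε) := by
      refine ((Q38.squares (3 / 2 - ε)).or (PL.ZG_few hε)).mono ?_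
      rintro n ⟨hn, hnp, hS⟩
      by_cases hsq : Q38.IsSq n
      · exact Or.inl hsq
      · exact Or.inr ⟨by omega, planar_abelian hn hS hnp hsq⟩
    obtain ⟨C₁, -, hC₁⟩ := hE
    refine ⟨C₁, fun x hx => ?_⟩
    rw [abelianNonprimeCount, ncard_eq]
    exact hC₁ x hx

end Pool.Agent.Results.MP_79499b_co.PlanarOrders
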